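import Pool.Agent.TTC.StmtsE

set_option autoImplicit false

namespace Pool.Agent.TTC.H97

open Polynomial

/-- majorization -/
def Maj (P Q : ℤ[X]) : Prop := ∀ n, |P.coeff n| ≤ Q.coeff n

theorem Maj.mul {P Q P' Q' : ℤ[X]} (h : Maj P Q) (h' : Maj P' Q') : Maj (P * P') (Q * Q') := by
  intro n
  rw [coeff_mul, coeff_mul]
  refine (Finset.abs_sum_le_sum_abs _ _).trans (Finset.sum_le_sum fun x _ => ?_)
  rw [abs_mul]
  exact mul_le_mul (h _) (h' _) (abs_nonneg _) ((abs_nonneg _).trans (h _))

theorem Maj.one : Maj 1 1 := by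
  intro n
  rw [coeff_one]
  split_ifs <;> simp

theorem Maj.pow {P Q : ℤ[X]} (h : Maj P Q) (e : ℕ) : Maj (P ^ e) (Q ^ e) := by
  induction e with
  | zero => rw [pow_zero, pow_zero]; exact Maj.one
  | succ e ih => rw [pow_succ, pow_succ]; exact ih.mul h

theorem Maj.prod {ι : Type} (s : Finset ι) {f g : ι → ℤ[X]} (h : ∀ i ∈ s, Maj (f i) (g i)) :
    Maj (∏ i ∈ s, f i) (∏ i ∈ s, g i) := by
  classical
  induction s using Finset.induction_on with
  | empty => simpa using Maj.one
  | insert i s hi ih =>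
    rw [Finset.prod_insert hi, Finset.prod_insert hi]
    exact (h i (Finset.mem_insert_self _ _)).mul (ih fun j hj => h j (Finset.mem_insert_of_mem hj))

theorem Maj.C (c : ℤ) : Maj (C c) (Polynomial.C |c|) := by
  intro n
  rw [coeff_C, coeff_C]
  split_ifs <;> simp

theorem Maj.lin (b : ℤ) (a : ℕ) :
    Maj (Polynomial.C b + (a : ℤ[X]) * X) (Polynomial.C |b| + (a : ℤ[X]) * X) := by
  intro n
  rw [coeff_add, coeff_add, coeff_C, coeff_C, ← C_eq_natCast, coeff_C_mul, coeff_X]
  split_ifs
  · omega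
  · simp
  · simp
  · simp

theorem Maj.le {P Q : ℤ[X]} (h : Maj P Q) (n : ℕ) : |P.coeff n| ≤ Q.eval 1 := by
  have h0 : ∀ n, 0 ≤ Q.coeff n := fun n => (abs_nonneg _).trans (h n)
  refine (h n).trans ?_
  rw [eval_eq_sum_range]
  by_cases hn : n ∈ Finset.range (Q.natDegree + 1)
  · have := Finset.single_le_sum (f := fun i => Q.coeff i * 1 ^ i)
      (fun i _ => by rw [one_pow, mul_one]; exact h0 i) hn
    simpa using this
  · rw [coeff_eq_zero_of_natDegree_lt (by rw [Finset.mem_range] at hn; omega)]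
    exact Finset.sum_nonneg fun i _ => by rw [one_pow, mul_one]; exact h0 i

/-- the substitution with values `b` -/
noncomputable def ph {m : ℕ} (i₀ : Fin (m + 1)) (a : Fin m → ℕ) (b : Fin m → ℤ) :
    MvPolynomial (Fin (m + 1)) ℤ →+* ℤ[X] :=
  (Polynomial.mapRingHom (MvPolynomial.eval b)).comp (sub i₀ a).toRingHom

theorem ph_apply {m : ℕ} (i₀ : Fin (m + 1)) (a : Fin m → ℕ) (b : Fin m → ℤ)
    (P : MvPolynomial (Fin (m + 1)) ℤ) : ph i₀ a b P = (sub i₀ a P).map (MvPolynomial.eval b) := rfl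

theorem ph_C {m : ℕ} (i₀ : Fin (m + 1)) (a : Fin m → ℕ) (b : Fin m → ℤ) (c : ℤ) :
    ph i₀ a b (MvPolynomial.C c) = C c := by
  simp

theorem ph_X0 {m : ℕ} (i₀ : Fin (m + 1)) (a : Fin m → ℕ) (b : Fin m → ℤ) :
    ph i₀ a b (MvPolynomial.X i₀) = X := by
  rw [ph_apply, sub, MvPolynomial.aeval_X, pt, Fin.insertNth_apply_same, Polynomial.map_X]

theorem ph_X {m : ℕ} (i₀ : Fin (m + 1)) (a : Fin m → ℕ) (b : Fin m → ℤ) (j : Fin m) :
    ph i₀ a b (MvPolynomial.X (i₀.succAbove j)) = C (b j) + (a j : ℤ[X]) * X := by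
  rw [ph_apply, sub, MvPolynomial.aeval_X, pt, Fin.insertNth_apply_succAbove, Polynomial.map_add,
    Polynomial.map_mul, Polynomial.map_X, Polynomial.map_C, MvPolynomial.eval_X,
    Polynomial.map_natCast]

theorem lsz : LszStmt := by
  intro k m L hL
  refine ⟨(k + 1) ^ (m + 1) * (2 * L) ^ k + k + 1, by omega, ?_⟩
  intro H i₀ a b P hH ha hb hP
  rw [← ph_apply]
  -- the variables
  have hvar : ∀ i, (ph i₀ a b (MvPolynomial.X i)).natDegree ≤ 1 ∧
      ∃ Q, Maj (ph i₀ a b (MvPolynomial.X i)) Q ∧ 0 ≤ Q.eval 1 ∧ Q.eval 1 ≤ 2 * L * H := by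
    intro i
    have hLH : (1 : ℤ) ≤ (L : ℤ) * H := by
      have h1 : (1 : ℤ) ≤ L := by exact_mod_cast hL
      have h2 : (1 : ℤ) ≤ H := by exact_mod_cast hH
      nlinarith
    rcases Fin.eq_self_or_eq_succAbove i₀ i with rfl | ⟨j, rfl⟩
    · rw [ph_X0]
      refine ⟨natDegree_X_le, X, ?_, ?_, ?_⟩
      · have h := Maj.lin 0 1
        simpa using h
      · simp
      · rw [eval_X]
        nlinarith
    · rw [ph_X]
      refine ⟨?_, _, Maj.lin _ _, ?_, ?_⟩
      · refine (natDegree_add_le _ _).trans (max_le ?_ ?_)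
        · rw [natDegree_C]; omega
        · rw [← C_eq_natCast]
          exact (natDegree_C_mul_le _ _).trans natDegree_X_le
      · simp only [eval_add, eval_C, eval_mul, eval_natCast, eval_X, mul_one]
        positivity
      · simp only [eval_add, eval_C, eval_mul, eval_natCast, eval_X, mul_one]
        have h1 := hb j
        have h2 : (a j : ℤ) ≤ L := by exact_mod_cast ha j
        have h3 : (1 : ℤ) ≤ H := by exact_mod_cast hH
        have h4 : (0 : ℤ) ≤ L := by positivity
        nlinarith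
  choose hdeg Q hQ hQ0 hQ1 using hvar
  have h1 : (1 : ℤ) ≤ 2 * L * H := by
    have h1 : (1 : ℤ) ≤ L := by exact_mod_cast hL
    have h2 : (1 : ℤ) ≤ H := by exact_mod_cast hH
    nlinarith
  -- the terms
  have hterm : ∀ n ∈ P.support, (ph i₀ a b (MvPolynomial.monomial n (P.coeff n))).natDegree ≤ k ∧
      ∀ r, |(ph i₀ a b (MvPolynomial.monomial n (P.coeff n))).coeff r| ≤
        (H : ℤ) * (2 * L * H) ^ k := by
    intro n hn
    have hs : ∑ i, n i ≤ k := by
      have := (MvPolynomial.le_totalDegree hn).trans hP.1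
      rwa [Finsupp.sum_fintype _ _ (fun _ => rfl)] at this
    have e : ph i₀ a b (MvPolynomial.monomial n (P.coeff n)) =
        C (P.coeff n) * ∏ i, (ph i₀ a b (MvPolynomial.X i)) ^ (n i) := by
      rw [MvPolynomial.monomial_eq, map_mul, ph_C, Finsupp.prod_fintype _ _ (fun _ => pow_zero _),
        map_prod]
      simp_rw [map_pow]
    rw [e]
    constructor
    · refine (natDegree_C_mul_le _ _).trans ((natDegree_prod_le _ _).trans ?_)
      refine (Finset.sum_le_sum fun i _ => ?_).trans hs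
      refine natDegree_pow_le.trans ?_
      calc n i * (ph i₀ a b (MvPolynomial.X i)).natDegree ≤ n i * 1 :=
            Nat.mul_le_mul_left _ (hdeg i)
        _ = n i := mul_one _
    · intro r
      have hm : Maj (C (P.coeff n) * ∏ i, (ph i₀ a b (MvPolynomial.X i)) ^ (n i))
          (C |P.coeff n| * ∏ i, (Q i) ^ (n i)) :=
        (Maj.C _).mul (Maj.prod _ fun i _ => (hQ i).pow _)
      refine (hm.le r).trans ?_
      rw [eval_mul, eval_C, eval_prod]
      refine mul_le_mul (hP.2 n) ?_ (Finset.prod_nonneg fun i _ => ?_) (by positivity)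
      · calc ∏ i, eval 1 (Q i ^ n i) ≤ ∏ i, (2 * (L : ℤ) * H) ^ (n i) := by
              refine Finset.prod_le_prod (fun i _ => ?_) (fun i _ => ?_)
              · rw [eval_pow]; exact pow_nonneg (hQ0 i) _
              · rw [eval_pow]; exact pow_le_pow_left₀ (hQ0 i) (hQ1 i) _
          _ = (2 * (L : ℤ) * H) ^ (∑ i, n i) := Finset.prod_pow_eq_pow_sum _ _ _
          _ ≤ (2 * (L : ℤ) * H) ^ k := pow_le_pow_right₀ h1 hs
      · rw [eval_pow]; exact pow_nonneg (hQ0 i) _
  -- the number of terms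
  have hcard : P.support.card ≤ (k + 1) ^ (m + 1) := by
    have h2 : P.support.card ≤
        (Fintype.piFinset fun _ : Fin (m + 1) => Finset.range (k + 1)).card := by
      refine Finset.card_le_card_of_injOn (fun n => (n : Fin (m + 1) → ℕ)) ?_ ?_
      · intro n hn
        rw [Finset.mem_coe, Fintype.mem_piFinset]
        intro i
        rw [Finset.mem_range]
        have hs : ∑ i, n i ≤ k := by
          have := (MvPolynomial.le_totalDegree hn).trans hP.1
          rwa [Finsupp.sum_fintype _ _ (fun _ => rfl)] at this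
        have := Finset.single_le_sum (f := fun i => n i) (fun i _ => Nat.zero_le _)
          (Finset.mem_univ i)
        show n i < k + 1
        omega
      · intro n _ n' _ h
        exact DFunLike.coe_injective h
    rw [Fintype.card_piFinset] at h2
    simpa using h2
  have esum : ph i₀ a b P = ∑ n ∈ P.support, ph i₀ a b (MvPolynomial.monomial n (P.coeff n)) := by
    conv_lhs => rw [MvPolynomial.as_sum P]
    rw [map_sum]
  rw [esum]
  constructor
  · exact natDegree_sum_le_of_forall_le _ _ fun n hn => (hterm n hn).1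
  · intro r
    rw [finset_sum_coeff]
    refine (Finset.abs_sum_le_sum_abs _ _).trans ((Finset.sum_le_sum fun n hn =>
      (hterm n hn).2 r).trans ?_)
    rw [Finset.sum_const, nsmul_eq_mul]
    set A := (k + 1) ^ (m + 1) * (2 * L) ^ k + k + 1 with hA
    have hH1 : (1 : ℤ) ≤ H := by exact_mod_cast hH
    calc (P.support.card : ℤ) * ((H : ℤ) * (2 * L * H) ^ k)
        ≤ ((k + 1) ^ (m + 1) : ℤ) * ((H : ℤ) * (2 * L * H) ^ k) := by
          refine mul_le_mul_of_nonneg_right (by exact_mod_cast hcard) (by positivity)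
      _ = ((k + 1) ^ (m + 1) * (2 * L) ^ k : ℤ) * (H : ℤ) ^ (k + 1) := by
          rw [mul_pow, pow_succ]
          ring
      _ ≤ (A : ℤ) * (H : ℤ) ^ A := by
          refine mul_le_mul ?_ (pow_le_pow_right₀ hH1 (by omega)) (by positivity) (by positivity)
          rw [hA]
          push_cast
          linarith [show (0 : ℤ) ≤ (k : ℤ) by positivity]

end Pool.Agent.TTC.H97
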