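import Pool.Agent.TTC.StmtsC

/-!
# Squad TTC, row NAT: naturality of the two resultants
-/

set_option autoImplicit false

namespace Pool.Agent.TTC.H97

open Polynomial

theorem quin_monic {R : Type} [CommRing R] [Nontrivial R] (a : Fin 5 → R) : (quin a).Monic := by
  unfold quin
  monicity!

theorem quin_deg {R : Type} [CommRing R] [Nontrivial R] (a : Fin 5 → R) :
    (quin a).natDegree = 5 := by
  unfold quin
  compute_degree!

theorem quin_map {R S : Type} [CommRing R] [CommRing S] (φ : R →+* S) (a : Fin 5 → R) :
    quin (fun i => φ (a i)) = (quin a).map φ := by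
  unfold quin
  simp only [Polynomial.map_add, Polynomial.map_mul, Polynomial.map_pow, map_X, map_C]

theorem nat : NatStmt := by
  refine ⟨?_, ?_, ?_⟩
  · intro R S _ _ φ a
    refine ⟨quin_map φ a, ?_, ?_⟩
    · unfold dr
      rw [quin_map, derivative_map, resultant_map_map]
    · intro m
      unfold er
      have h1 : (C (m : S) : S[X]) = (C (m : R)).map φ := by
        rw [Polynomial.map_C]
        exact congrArg C (map_natCast φ m).symm
      rw [quin_map, derivative_map, derivative_map, h1, ← Polynomial.map_mul,
        ← Polynomial.map_add, resultant_map_map]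
  · intro a
    have hd := quin_deg a
    have hm := quin_monic a
    have h1 : 0 < (quin a).degree := by
      rw [← natDegree_pos_iff_degree_pos, hd]
      norm_num
    have h2 := resultant_deriv h1
    rw [hd, hm.leadingCoeff] at h2
    unfold dr
    have h3 : (-1 : ℤ) ^ (5 * (5 - 1) / 2) = 1 := by norm_num
    rw [h3, one_mul, one_mul] at h2
    exact h2.symm
  · intro a
    have hd := quin_deg a
    have hm := quin_monic a
    have h0 : quin a ≠ 0 := hm.ne_zero
    have h4 : (derivative (quin a)).natDegree = 4 := by
      have h6 := degree_derivative_eq (quin a) (by rw [hd]; norm_num)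
      rw [hd] at h6
      exact natDegree_eq_of_degree_eq_some h6
    have h5 : dr a = resultant (quin a) (derivative (quin a)) := by
      unfold dr
      rw [hd, h4]
    rw [h5, resultant_eq_zero_iff, ← PerfectField.separable_iff_squarefree]
    constructor
    · intro h
      exact h.2
    · intro h
      exact ⟨Or.inl h0, h⟩

end Pool.Agent.TTC.H97
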